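import Pool.Agent.X186.HC.Group

/-!
# Injectivity for algebraically independent parameters
-/

set_option autoImplicit false

open Matrix UpperHalfPlane Cardinal
open scoped MatrixGroups Pointwise

namespace Pool.Agent.X186.HC

/-- the homomorphism with parameters `y` -/
noncomputable def phi {G R : Type*} [CommRing R] (y : G → R) : FreeGroup G →* SL(2, R) :=
  FreeGroup.lift (fun g => PP (y g))

theorem phi_map {G R S : Type*} [CommRing R] [CommRing S] (f : R →+* S) (y : G → R)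
    (g : FreeGroup G) : Matrix.SpecialLinearGroup.map f (phi y g) = phi (fun i => f (y i)) g := by
  have h : (Matrix.SpecialLinearGroup.map f).comp (phi y) = phi (fun i => f (y i)) := by
    apply FreeGroup.ext_hom
    intro i
    simp [phi, map_PP]
  rw [← h]
  rfl

theorem exists_map_ne {G : Type*} (g : FreeGroup G) (hg : g ≠ 1) :
    ∃ n : G → ℕ, FreeGroup.map n g ≠ 1 := by
  classical
  let l : List G := g.toWord.map Prod.fst
  refine ⟨fun x => l.idxOf x, ?_⟩
  have h1 : FreeGroup.map (fun x => l.idxOf x) g =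
      FreeGroup.mk (g.toWord.map (fun c => (l.idxOf c.1, c.2))) := by
    conv_lhs => rw [← FreeGroup.mk_toWord (x := g)]
    rw [FreeGroup.map.mk]
  rw [h1]
  apply mk_ne_one
  · have hred : FreeGroup.IsReduced g.toWord := FreeGroup.isReduced_toWord
    have hmem : ∀ c ∈ g.toWord, c.1 ∈ l := fun c hc => List.mem_map_of_mem hc
    unfold FreeGroup.IsReduced at hred ⊢
    rw [List.isChain_map]
    have key : ∀ w : List (G × Bool), (∀ c ∈ w, c.1 ∈ l) →
        w.IsChain (fun a b => a.1 = b.1 → a.2 = b.2) →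
        w.IsChain (fun a b => l.idxOf a.1 = l.idxOf b.1 → a.2 = b.2) := by
      intro w
      induction w with
      | nil => intro _ _; simp
      | cons a w ih =>
        intro hm hc
        rcases w with _ | ⟨b, w⟩
        · simp
        · rw [List.isChain_cons_cons] at hc ⊢
          refine ⟨fun h => hc.1 ?_, ih (fun c hc => hm c (by simp [hc])) hc.2⟩
          exact (List.idxOf_inj (hm a (by simp))).mp h
    exact key _ hmem hred
  · intro h
    apply hg
    rw [List.map_eq_nil_iff] at h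
    rwa [FreeGroup.toWord_eq_nil_iff] at h

theorem phi_injective {G : Type} (x : G → ℝ) (hx : AlgebraicIndependent ℚ x) :
    Function.Injective (phi x) := by
  rw [injective_iff_map_eq_one]
  intro g hg
  by_contra hne
  obtain ⟨n, hn⟩ := exists_map_ne g hne
  -- over the polynomial ring
  have h1 : phi (fun i => (MvPolynomial.X i : MvPolynomial G ℚ)) g = 1 := by
    have h2 := phi_map (MvPolynomial.aeval x : MvPolynomial G ℚ →ₐ[ℚ] ℝ).toRingHom
      (fun i => (MvPolynomial.X i : MvPolynomial G ℚ)) g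
    have h3 : (fun i => (MvPolynomial.aeval x : MvPolynomial G ℚ →ₐ[ℚ] ℝ).toRingHom
        (MvPolynomial.X i : MvPolynomial G ℚ)) = x := by
      funext i
      simp
    rw [h3, hg] at h2
    have hinj : Function.Injective (MvPolynomial.aeval x : MvPolynomial G ℚ →ₐ[ℚ] ℝ) := hx
    apply Subtype.ext
    apply Matrix.ext
    intro i j
    have h4 := congrArg (fun M : SL(2, ℝ) => M.1 i j) h2
    have h5 : (MvPolynomial.aeval x : MvPolynomial G ℚ →ₐ[ℚ] ℝ)
        ((phi (fun i => (MvPolynomial.X i : MvPolynomial G ℚ)) g).1 i j) =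
        (1 : Matrix (Fin 2) (Fin 2) ℝ) i j := h4
    apply hinj
    rw [h5]
    have h6 : ((1 : SL(2, MvPolynomial G ℚ)) : Matrix (Fin 2) (Fin 2) (MvPolynomial G ℚ)) i j =
      (1 : Matrix (Fin 2) (Fin 2) (MvPolynomial G ℚ)) i j := rfl
    rw [h6, Matrix.one_apply, Matrix.one_apply]
    split_ifs
    · simp
    · simp
  -- specialize
  have h7 := phi_map (MvPolynomial.aeval (fun i => (5 * n i : ℝ)) : MvPolynomial G ℚ →ₐ[ℚ] ℝ).toRingHom
      (fun i => (MvPolynomial.X i : MvPolynomial G ℚ)) g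
  have h8 : (fun i => (MvPolynomial.aeval (fun i => (5 * n i : ℝ)) :
      MvPolynomial G ℚ →ₐ[ℚ] ℝ).toRingHom (MvPolynomial.X i : MvPolynomial G ℚ)) =
        fun i => (5 * n i : ℝ) := by
    funext i
    simp
  rw [h8, h1, map_one] at h7
  have h9 : phi (fun i => (5 * n i : ℝ)) g =
      phi (fun m : ℕ => (5 * m : ℝ)) (FreeGroup.map n g) := by
    have : phi (fun i => (5 * n i : ℝ)) =
        (phi (fun m : ℕ => (5 * m : ℝ))).comp (FreeGroup.map n) := by
      apply FreeGroup.ext_hom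
      intro i
      simp [phi]
    rw [this]
    rfl
  rw [h9] at h7
  apply hn
  apply ping_pong
  rw [map_one]
  exact h7.symm

/-- elements of `SL(2, ℝ)` with a common fixed point in the upper half plane commute -/
theorem commute_of_fixed {A B : SL(2, ℝ)} {z : ℍ} (hA : A • z = z) (hB : B • z = z) :
    A * B = B * A := by
  have key : ∀ A : SL(2, ℝ), A • z = z →
      A.1 1 1 - A.1 0 0 = -2 * (z : ℂ).re * A.1 1 0 ∧
      A.1 0 1 = -(A.1 1 0 * ((z : ℂ).re ^ 2 + (z : ℂ).im ^ 2)) := by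
    intro A hA
    have h1 := coe_specialLinearGroup_apply A z
    rw [hA] at h1
    have hd : ((A.1 1 0 : ℂ) * z + (A.1 1 1 : ℂ)) ≠ 0 := by
      intro h0
      have h2 : (z : ℂ) = 0 := by
        rw [h1]
        have : (((algebraMap ℝ ℝ) (A.1 1 0) : ℂ) * z + ((algebraMap ℝ ℝ) (A.1 1 1) : ℂ)) = 0 := h0
        rw [this, div_zero]
      have := congrArg Complex.im h2
      simp at this
      exact z.im_pos.ne' this
    have h2 : (z : ℂ) * ((A.1 1 0 : ℂ) * z + (A.1 1 1 : ℂ)) =
        (A.1 0 0 : ℂ) * z + (A.1 0 1 : ℂ) := by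
      have h3 : (z : ℂ) = ((A.1 0 0 : ℂ) * z + (A.1 0 1 : ℂ)) /
          ((A.1 1 0 : ℂ) * z + (A.1 1 1 : ℂ)) := h1
      rw [eq_div_iff hd] at h3
      exact h3
    have hre := congrArg Complex.re h2
    have him := congrArg Complex.im h2
    simp only [Complex.mul_re, Complex.mul_im, Complex.add_re, Complex.add_im, Complex.ofReal_re,
      Complex.ofReal_im, zero_mul, sub_zero, add_zero] at hre him
    have hy : (z : ℂ).im ≠ 0 := z.im_pos.ne'
    have e1 : A.1 1 1 - A.1 0 0 = -2 * (z : ℂ).re * A.1 1 0 := by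
      apply mul_right_cancel₀ hy
      linear_combination him
    refine ⟨e1, ?_⟩
    linear_combination -hre + (z : ℂ).re * e1
  obtain ⟨a1, a2⟩ := key A hA
  obtain ⟨b1, b2⟩ := key B hB
  ext i j
  rw [Matrix.SpecialLinearGroup.coe_mul, Matrix.SpecialLinearGroup.coe_mul, Matrix.mul_apply,
    Matrix.mul_apply, Fin.sum_univ_two, Fin.sum_univ_two]
  set X := (z : ℂ).re
  set Y := (z : ℂ).im
  have a1' : A.1 1 1 = A.1 0 0 - 2 * X * A.1 1 0 := by linear_combination a1
  have b1' : B.1 1 1 = B.1 0 0 - 2 * X * B.1 1 0 := by linear_combination b1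
  fin_cases i <;> fin_cases j
  · show A.1 0 0 * B.1 0 0 + A.1 0 1 * B.1 1 0 = B.1 0 0 * A.1 0 0 + B.1 0 1 * A.1 1 0
    rw [a2, b2]; ring
  · show A.1 0 0 * B.1 0 1 + A.1 0 1 * B.1 1 1 = B.1 0 0 * A.1 0 1 + B.1 0 1 * A.1 1 1
    rw [a2, b2, a1', b1']; ring
  · show A.1 1 0 * B.1 0 0 + A.1 1 1 * B.1 1 0 = B.1 1 0 * A.1 0 0 + B.1 1 1 * A.1 1 0
    rw [a1', b1']; ring
  · show A.1 1 0 * B.1 0 1 + A.1 1 1 * B.1 1 1 = B.1 1 0 * A.1 0 1 + B.1 1 1 * A.1 1 1
    rw [a2, b2]; ring

theorem exists_algInd (G : Type) (hG : #G ≤ 𝔠) : ∃ x : G → ℝ, AlgebraicIndependent ℚ x := by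
  obtain ⟨s, hs⟩ := exists_isTranscendenceBasis ℚ ℝ
  have h1 : #ℝ ≤ max #(Algebra.adjoin ℚ (Set.range (Subtype.val : s → ℝ))) ℵ₀ := by
    have := hs.isAlgebraic
    exact Algebra.IsAlgebraic.cardinalMk_le_max _ _
  have h2 : #(Algebra.adjoin ℚ (Set.range (Subtype.val : s → ℝ))) ≤ max (max #ℚ #s) ℵ₀ := by
    rw [← Cardinal.mk_congr hs.1.aevalEquiv.toEquiv]
    exact MvPolynomial.cardinalMk_le_max
  have h3 : 𝔠 ≤ #s := by
    rw [Cardinal.mk_real] at h1
    have h4 : 𝔠 ≤ max (max (max #ℚ #s) ℵ₀) ℵ₀ := h1.trans (max_le_max h2 le_rfl)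
    by_contra hcon
    push Not at hcon
    have h5 : max (max (max #ℚ #s) ℵ₀) ℵ₀ < 𝔠 := by
      rw [max_lt_iff, max_lt_iff, max_lt_iff]
      refine ⟨⟨⟨?_, hcon⟩, Cardinal.aleph0_lt_continuum⟩, Cardinal.aleph0_lt_continuum⟩
      exact (Cardinal.mk_le_aleph0).trans_lt Cardinal.aleph0_lt_continuum
    exact absurd h4 (not_le.mpr h5)
  obtain ⟨e⟩ := Cardinal.le_def _ _ |>.mp (hG.trans h3)
  exact ⟨fun g => (e g : ℝ), hs.1.comp e e.injective⟩

end Pool.Agent.X186.HC
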