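import Pool.Agent.X186.HC.Free

/-!
# Systems of congruences in the hyperbolic plane
-/

set_option autoImplicit false

open Matrix UpperHalfPlane Cardinal
open scoped MatrixGroups Pointwise

namespace Pool.Agent.X186.HC

theorem system_plane {I K : Type} (hK : #K ≤ 𝔠) (S : K → Set I) (i0 : I) (hi0 : ∀ k, i0 ∈ S k)
    (hne : ∀ k, S k ≠ Set.univ) (hinj : Function.Injective S) :
    ∃ (B : Set ℍ) (A : ℍ → I) (t : SL(2, ℝ)) (g : K → SL(2, ℝ)), (∀ z, t • z ∈ B ↔ z ∉ B) ∧
      ∀ k z, A (g k • z) ∈ S k ↔ z ∈ B := by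
  have hG : #(Option K) ≤ 𝔠 := by
    rw [Cardinal.mk_option]
    exact Cardinal.add_le_of_le Cardinal.aleph0_le_continuum hK
      (Cardinal.one_lt_aleph0.le.trans Cardinal.aleph0_le_continuum)
  obtain ⟨x, hx⟩ := exists_algInd (Option K) hG
  let _ : MulAction (FreeGroup (Option K)) ℍ := MulAction.compHom ℍ (phi x)
  have hsm : ∀ (g : FreeGroup (Option K)) (z : ℍ), g • z = phi x g • z := fun _ _ => rfl
  obtain ⟨B, A, h1, h2⟩ := system_solve (X := ℍ) S i0 hi0 hne hinj (by
    intro z g h hg hh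
    rw [hsm] at hg hh
    apply phi_injective x hx
    rw [map_mul, map_mul]
    exact commute_of_fixed hg hh) (by
    intro n z hn h
    rw [hsm, map_zpow] at h
    have h3 : phi x (FreeGroup.of none) = PP (x none) := by simp [phi]
    rw [h3] at h
    have h4 := ze_PP_zpow (x none) z n
    rw [h] at h4
    have h5 : (n : ℂ) = 0 := by linear_combination -h4
    exact hn (by exact_mod_cast h5))
  exact ⟨B, A, phi x (FreeGroup.of none), fun k => phi x (FreeGroup.of (some k)), h1, h2⟩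

/-- **Every proper system of at most continuum many congruences is solvable in the hyperbolic
plane.** -/
theorem main (I M : Type) (L R : M → Set I) (hI : Nonempty I) (hM : #M ≤ 𝔠)
    (hp : ∀ i, (L i).Nonempty ∧ L i ≠ Set.univ ∧ (R i).Nonempty ∧ R i ≠ Set.univ) :
    ∃ A : I → Set ℍ, Pairwise (fun j k => Disjoint (A j) (A k)) ∧ (⋃ j, A j) = Set.univ ∧
      ∀ i, ∃ g : ℍ ≃ᵢ ℍ, g '' (⋃ j ∈ L i, A j) = ⋃ j ∈ R i, A j := by
  classical
  obtain ⟨i0⟩ := hI
  let N : Set I → Set I := fun T => if i0 ∈ T then T else Tᶜ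
  let F : M ⊕ M → Set I := Sum.elim (fun m => N (L m)) (fun m => N (R m))
  let K : Type := Set.range F
  have hK : #K ≤ 𝔠 := by
    refine Cardinal.mk_range_le.trans ?_
    rw [Cardinal.mk_sum, Cardinal.lift_id]
    exact Cardinal.add_le_of_le Cardinal.aleph0_le_continuum hM hM
  have hN : ∀ T : Set I, i0 ∈ N T := by
    intro T
    simp only [N]
    split_ifs with h
    · exact h
    · exact h
  have hN2 : ∀ T : Set I, T.Nonempty → T ≠ Set.univ → N T ≠ Set.univ := by
    intro T h1 h2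
    simp only [N]
    split_ifs with h
    · exact h2
    · intro h3
      rw [Set.compl_univ_iff] at h3
      exact h1.ne_empty h3
  obtain ⟨B, A, t, g, ht, hg⟩ := system_plane hK (fun k : K => k.1) i0 (by
    rintro ⟨_, m | m, rfl⟩
    · exact hN _
    · exact hN _) (by
    rintro ⟨_, m | m, rfl⟩
    · exact hN2 _ (hp m).1 (hp m).2.1
    · exact hN2 _ (hp m).2.2.1 (hp m).2.2.2) Subtype.val_injective
  have key : ∀ T : Set I, N T ∈ Set.range F → ∃ h : SL(2, ℝ), ∀ z, A (h • z) ∈ T ↔ z ∈ B := by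
    intro T hT
    obtain ⟨k, hk⟩ : ∃ k : K, k.1 = N T := ⟨⟨N T, hT⟩, rfl⟩
    by_cases h : i0 ∈ T
    · have hNT : N T = T := by simp only [N]; rw [if_pos h]
      refine ⟨g k, fun z => ?_⟩
      have := hg k z
      rw [hk, hNT] at this
      exact this
    · have hNT : N T = Tᶜ := by simp only [N]; rw [if_neg h]
      refine ⟨g k * t, fun z => ?_⟩
      have h1 := hg k (t • z)
      have h2 := ht z
      rw [mul_smul]
      rw [hk, hNT, Set.mem_compl_iff] at h1
      tauto
  refine ⟨fun i => {z | A z = i}, ?_, ?_, ?_⟩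
  · intro j k hjk
    rw [Set.disjoint_left]
    intro z hz hz'
    exact hjk (hz.symm.trans hz')
  · ext z
    simp
  · intro i
    obtain ⟨a, ha⟩ := key (L i) ⟨Sum.inl i, rfl⟩
    obtain ⟨b, hb⟩ := key (R i) ⟨Sum.inr i, rfl⟩
    refine ⟨IsometryEquiv.constSMul (b * a⁻¹), ?_⟩
    have hL : (⋃ j ∈ L i, {z : ℍ | A z = j}) = {z | A z ∈ L i} := by
      ext z; simp
    have hR : (⋃ j ∈ R i, {z : ℍ | A z = j}) = {z | A z ∈ R i} := by
      ext z; simp
    rw [hL, hR]
    have hab : ∀ z, A z ∈ L i ↔ A ((b * a⁻¹) • z) ∈ R i := by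
      intro z
      have h1 := ha (a⁻¹ • z)
      have h2 := hb (a⁻¹ • z)
      rw [smul_inv_smul] at h1
      rw [mul_smul, h1, h2]
    ext z
    constructor
    · rintro ⟨y, hy, rfl⟩
      exact (hab y).mp hy
    · intro hz
      refine ⟨(b * a⁻¹)⁻¹ • z, ?_, ?_⟩
      · show A _ ∈ L i
        rw [hab, smul_inv_smul]
        exact hz
      · show (b * a⁻¹) • (b * a⁻¹)⁻¹ • z = z
        rw [smul_inv_smul]

end Pool.Agent.X186.HC
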