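import Mathlib

/-!
# Solving edge constraints on Schreier graphs of free groups with commutative stabilizers
-/

set_option autoImplicit false

open FreeGroup

namespace Pool.Agent.X186.HC

variable {G : Type*} {X : Type*}

/-- the inverse letter -/
def li (c : G × Bool) : G × Bool := (c.1, !c.2)

theorem li_li (c : G × Bool) : li (li c) = c := by simp [li]

theorem li_inj {a b : G × Bool} (h : li a = li b) : a = b := by
  rw [← li_li a, h, li_li]

theorem compat_iff (a b : G × Bool) : (a.1 = b.1 → a.2 = b.2) ↔ b ≠ li a := by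
  obtain ⟨a1, a2⟩ := a
  obtain ⟨b1, b2⟩ := b
  simp only [li, ne_eq, Prod.mk.injEq, not_and]
  constructor
  · intro h h1 h2
    have := h h1.symm
    subst this
    cases a2 <;> simp at h2
  · intro h h1
    have := h h1.symm
    cases a2 <;> cases b2 <;> simp_all

theorem invRev_single (c : G × Bool) : invRev [c] = [li c] := rfl

theorem invRev_snoc (a : List (G × Bool)) (e : G × Bool) : invRev (a ++ [e]) = li e :: invRev a := by
  rw [invRev_append, invRev_single]; rfl

theorem invRev_cons' (a : List (G × Bool)) (e : G × Bool) : invRev (e :: a) = invRev a ++ [li e] := by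
  rw [invRev_cons]; rfl

theorem red_append {a b : List (G × Bool)} : IsReduced (a ++ b) ↔
    IsReduced a ∧ IsReduced b ∧ ∀ x ∈ a.getLast?, ∀ y ∈ b.head?, y ≠ li x := by
  unfold FreeGroup.IsReduced
  rw [List.isChain_append]
  simp only [compat_iff]

theorem red_invRev {a : List (G × Bool)} (h : IsReduced a) : IsReduced (invRev a) := by
  classical
  rw [isReduced_iff_reduce_eq, reduce_invRev, h.reduce_eq]

theorem red_ext {a b : List (G × Bool)} (ha : IsReduced a) (hb : IsReduced b)
    (h : FreeGroup.mk a = FreeGroup.mk b) : a = b := by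
  classical
  have h2 := reduce.sound h
  rwa [ha.reduce_eq, hb.reduce_eq] at h2

theorem mk_ne_one {a : List (G × Bool)} (ha : IsReduced a) (hne : a ≠ []) :
    FreeGroup.mk a ≠ 1 := by
  intro h
  apply hne
  exact red_ext ha IsReduced.nil (by rw [h]; rfl)

section
variable [MulAction (FreeGroup G) X]

theorem mk_append_smul (a b : List (G × Bool)) (x : X) :
    FreeGroup.mk (a ++ b) • x = FreeGroup.mk a • FreeGroup.mk b • x := by
  rw [← mul_mk, mul_smul]

theorem mk_cons_smul (c : G × Bool) (b : List (G × Bool)) (x : X) :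
    FreeGroup.mk (c :: b) • x = FreeGroup.mk [c] • FreeGroup.mk b • x := by
  rw [← mk_append_smul]; rfl

theorem mk_nil_smul (x : X) : FreeGroup.mk ([] : List (G × Bool)) • x = x := by
  have : FreeGroup.mk ([] : List (G × Bool)) = 1 := rfl
  rw [this, one_smul]

theorem li_smul (c : G × Bool) (x : X) : FreeGroup.mk [li c] • FreeGroup.mk [c] • x = x := by
  rw [← invRev_single, ← inv_mk, inv_smul_smul]

theorem smul_li (c : G × Bool) (x : X) : FreeGroup.mk [c] • FreeGroup.mk [li c] • x = x := by
  rw [← invRev_single, ← inv_mk, smul_inv_smul]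

/-- stabilizers of `x` commute -/
def CommAt (G : Type*) {X : Type*} [MulAction (FreeGroup G) X] (x : X) : Prop :=
  ∀ g h : FreeGroup G, g • x = x → h • x = x → g * h = h * g

theorem commut_contra {x x' : X} (hcomm : CommAt G x) {u u' a : List (G × Bool)}
    (hu : FreeGroup.mk u • x = x) (hu' : FreeGroup.mk u' • x' = x') (ha : FreeGroup.mk a • x = x')
    (une : u ≠ []) (u'ne : u' ≠ []) (ane : a ≠ [])
    (h1 : IsReduced (u ++ invRev a)) (h2 : IsReduced (invRev a ++ u')) (h3 : IsReduced (u' ++ a))
    (h4 : IsReduced (a ++ u)) : False := by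
  have ane' : invRev a ≠ [] := by
    intro h
    apply ane
    have := congrArg List.length h
    rw [invRev_length] at this
    exact List.length_eq_zero_iff.mp this
  have r1 : IsReduced (u ++ invRev a ++ u' ++ a) := by
    refine IsReduced.append_overlap (L₁ := u ++ invRev a) (L₂ := u') (L₃ := a) ?_ h3 u'ne
    exact IsReduced.append_overlap h1 h2 ane'
  have r2 : IsReduced (invRev a ++ u' ++ a ++ u) := by
    refine IsReduced.append_overlap (L₁ := invRev a ++ u') (L₂ := a) (L₃ := u) ?_ h4 ane
    exact IsReduced.append_overlap h2 h3 u'ne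
  have hg : FreeGroup.mk (invRev a ++ u' ++ a) • x = x := by
    rw [mk_append_smul, mk_append_smul, ha, hu', ← inv_mk, ← ha, inv_smul_smul]
  have hc := hcomm _ _ hu hg
  rw [mul_mk, mul_mk] at hc
  have hl := red_ext (by simpa using r1) (by simpa using r2) hc
  obtain ⟨a0, e, rfl⟩ : ∃ a0 e, a = a0 ++ [e] := by
    rcases List.eq_nil_or_concat a with h | ⟨a0, e, h⟩
    · exact absurd h ane
    · exact ⟨a0, e, by simpa using h⟩
  obtain ⟨c, u0, rfl⟩ := List.exists_cons_of_ne_nil une
  rw [invRev_snoc] at hl
  have hh := congrArg List.head? hl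
  simp at hh
  have h5 := (red_append.mp h4).2.2 e (by simp) c (by simp)
  exact h5 hh

/-- a set with loops inside it -/
def Core (Y : Set X) : Prop :=
  ∀ x ∈ Y, ∃ w : List (G × Bool), w ≠ [] ∧ IsReduced w ∧ FreeGroup.mk w • x = x ∧
    (∀ c ∈ w.getLast?, FreeGroup.mk [c] • x ∈ Y) ∧ (∀ d ∈ w.head?, FreeGroup.mk [li d] • x ∈ Y)

/-- reduced paths between points of `Y` stay in `Y` -/
def Good (G : Type*) {X : Type*} [MulAction (FreeGroup G) X] (Y : Set X) : Prop :=
  ∀ a : List (G × Bool), IsReduced a → ∀ x ∈ Y, FreeGroup.mk a • x ∈ Y →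
    ∀ a', a' <:+ a → FreeGroup.mk a' • x ∈ Y

theorem Core.good {Y : Set X} (hcomm : ∀ x ∈ Y, CommAt G x) (h : Core (G := G) Y) : Good G Y := by
  intro a
  induction hn : a.length using Nat.strong_induction_on generalizing a with
  | _ n ih =>
  intro ha x hx hx' a' ha'
  by_cases hex : ∃ p b : List (G × Bool), a = p ++ b ∧ p ≠ [] ∧ b ≠ [] ∧ FreeGroup.mk b • x ∈ Y
  · obtain ⟨p, b, hab, hp, hb, hbY⟩ := hex
    have hpl : 0 < p.length := List.length_pos_iff.mpr hp
    have hbl : 0 < b.length := List.length_pos_iff.mpr hb
    have hlen : p.length + b.length = n := by rw [← hn, hab, List.length_append]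
    have hbr : IsReduced b := (red_append.mp (hab ▸ ha)).2.1
    have hpr : IsReduced p := (red_append.mp (hab ▸ ha)).1
    have hbs : b <:+ a := ⟨p, hab.symm⟩
    rcases List.suffix_or_suffix_of_suffix ha' hbs with h1 | h1
    · exact ih b.length (by omega) b rfl hbr x hx hbY a' h1
    · obtain ⟨q, hq⟩ := h1
      have hqp : q <:+ p := by
        obtain ⟨r, hr⟩ := ha'
        refine ⟨r, ?_⟩
        rw [hab, ← hq, ← List.append_assoc] at hr
        exact List.append_cancel_right hr
      rw [← hq, mk_append_smul]
      refine ih p.length (by omega) p rfl hpr _ hbY ?_ q hqp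
      rw [← mk_append_smul, ← hab]
      exact hx'
  · push Not at hex
    rcases Nat.lt_or_ge a.length 2 with hlt | hge
    · obtain ⟨r, hr⟩ := ha'
      rcases a with _ | ⟨c, _ | ⟨d, a⟩⟩
      · simp at hr
        rw [hr.2, mk_nil_smul]
        exact hx
      · rcases r with _ | ⟨c', r⟩
        · simp at hr
          rw [hr]
          exact hx'
        · simp at hr
          rw [hr.2.2, mk_nil_smul]
          exact hx
      · simp at hlt
    · exfalso
      obtain ⟨w, wne, wr, wx, wl, wh⟩ := h x hx
      obtain ⟨w', wne', wr', wx', wl', wh'⟩ := h _ hx'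
      have ane : a ≠ [] := by
        rintro rfl
        simp at hge
      obtain ⟨a0, e, hae⟩ : ∃ a0 e, a = a0 ++ [e] := by
        rcases List.eq_nil_or_concat a with h | ⟨a0, e, h⟩
        · exact absurd h ane
        · exact ⟨a0, e, by simpa using h⟩
      obtain ⟨c, a1, hac⟩ := List.exists_cons_of_ne_nil ane
      have h0 : a0 ≠ [] := by
        rintro rfl
        rw [hae] at hge
        simp at hge
      have h1 : a1 ≠ [] := by
        rintro rfl
        rw [hac] at hge
        simp at hge
      have he : FreeGroup.mk [e] • x ∉ Y := hex a0 [e] hae h0 (by simp)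
      have hc : FreeGroup.mk [li c] • (FreeGroup.mk a • x) ∉ Y := by
        rw [hac, mk_cons_smul c a1, li_smul]
        exact hex [c] a1 (by simpa using hac) (by simp) h1
      refine commut_contra (hcomm x hx) wx wx' rfl wne wne' ane ?_ ?_ ?_ ?_
      · refine red_append.mpr ⟨wr, red_invRev ha, ?_⟩
        intro f hf y hy
        rw [hae, invRev_snoc] at hy
        simp at hy
        rw [← hy]
        intro hh
        have : e = f := li_inj hh
        rw [this] at he
        exact he (wl f hf)
      · refine red_append.mpr ⟨red_invRev ha, wr', ?_⟩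
        intro f hf y hy
        rw [hac, invRev_cons'] at hf
        simp at hf
        rw [← hf, li_li]
        rintro rfl
        exact hc (wh' _ hy)
      · refine red_append.mpr ⟨wr', ha, ?_⟩
        intro f hf y hy
        rw [hac] at hy
        simp at hy
        subst hy
        intro hh
        rw [hh, li_li] at hc
        exact hc (wl' f hf)
      · refine red_append.mpr ⟨ha, wr, ?_⟩
        intro f hf y hy
        rw [hae] at hf
        simp at hf
        subst hf
        intro hh
        have h5 := wh y hy
        rw [hh, li_li] at h5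
        exact he h5

theorem edge_contra {x : X} {c : G × Bool} {w w' : List (G × Bool)} (hcomm : CommAt G x)
    (wne : w ≠ []) (wr : IsReduced w) (wx : FreeGroup.mk w • x = x)
    (wne' : w' ≠ []) (wr' : IsReduced w')
    (wx' : FreeGroup.mk w' • (FreeGroup.mk [c] • x) = FreeGroup.mk [c] • x)
    (h1 : c ∉ w.getLast?) (h2 : li c ∉ w.head?) (h3 : c ∉ w'.head?) (h4 : li c ∉ w'.getLast?) :
    False := by
  refine commut_contra hcomm wx wx' (a := [c]) rfl wne wne' (by simp) ?_ ?_ ?_ ?_
  · refine red_append.mpr ⟨wr, by simp [invRev_single], ?_⟩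
    intro f hf y hy
    simp [invRev_single] at hy
    rw [← hy]
    intro hh
    rw [li_inj hh] at h1
    exact h1 hf
  · refine red_append.mpr ⟨by simp [invRev_single], wr', ?_⟩
    intro f hf y hy
    simp [invRev_single] at hf
    rw [← hf, li_li]
    rintro rfl
    exact h3 hy
  · refine red_append.mpr ⟨wr', by simp, ?_⟩
    intro f hf y hy
    simp at hy
    subst hy
    intro hh
    rw [hh, li_li] at h4
    exact h4 hf
  · refine red_append.mpr ⟨by simp, wr, ?_⟩
    intro f hf y hy
    simp at hf
    subst hf
    intro hh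
    rw [hh] at hy
    exact h2 hy

end

end Pool.Agent.X186.HC
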