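import Pool.Agent.X186.HC.System

/-!
# A free group of rank continuum in `SL(2, ℝ)`
-/

set_option autoImplicit false

open Matrix UpperHalfPlane
open scoped MatrixGroups Pointwise

namespace Pool.Agent.X186.HC

/-- the parabolic matrix with fixed point `x` -/
def PP {R : Type*} [CommRing R] (x : R) : SL(2, R) :=
  ⟨!![1 + x, -x ^ 2; 1, 1 - x], by rw [Matrix.det_fin_two_of]; ring⟩

theorem map_PP {R S : Type*} [CommRing R] [CommRing S] (f : R →+* S) (x : R) :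
    Matrix.SpecialLinearGroup.map f (PP x) = PP (f x) := by
  ext i j
  fin_cases i <;> fin_cases j
  · show f (1 + x) = 1 + f x
    simp
  · show f (-x ^ 2) = -(f x) ^ 2
    simp
  · show f 1 = 1
    simp
  · show f (1 - x) = 1 - f x
    simp

/-- the coordinate in which `PP x` is a translation -/
noncomputable def ze (x : ℝ) (z : ℍ) : ℂ := ((z : ℂ) - x)⁻¹

theorem sub_ne (x : ℝ) (z : ℍ) : (z : ℂ) - x ≠ 0 := by
  intro h
  have h1 := congrArg Complex.im h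
  simp at h1
  exact z.im_pos.ne' h1

theorem ze_PP (x : ℝ) (z : ℍ) : ze x (PP x • z) = ze x z + 1 := by
  have h1 : ((PP x • z : ℍ) : ℂ) = ((1 + x) * z - x ^ 2) / (z + (1 - x)) := by
    rw [coe_specialLinearGroup_apply]
    simp [PP]
    ring_nf
  have hz := sub_ne x z
  have hd : (z : ℂ) + (1 - x) ≠ 0 := by
    intro h
    have h1 := congrArg Complex.im h
    simp at h1
    exact z.im_pos.ne' h1
  unfold ze
  rw [h1]
  have h2 : ((1 + x) * (z : ℂ) - x ^ 2) / (z + (1 - x)) - x = (z - x) / (z + (1 - x)) := by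
    field_simp
    ring
  rw [h2]
  field_simp
  ring

theorem ze_PP_inv (x : ℝ) (z : ℍ) : ze x ((PP x)⁻¹ • z) = ze x z - 1 := by
  have h := ze_PP x ((PP x)⁻¹ • z)
  rw [smul_inv_smul] at h
  rw [h]; ring

theorem ze_PP_zpow (x : ℝ) (z : ℍ) (n : ℤ) : ze x ((PP x) ^ n • z) = ze x z + n := by
  induction n with
  | zero => simp
  | succ n ih =>
    have : (PP x) ^ ((n : ℤ) + 1) = PP x * (PP x) ^ (n : ℤ) := by
      rw [add_comm, _root_.zpow_add, _root_.zpow_one]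
    rw [this, mul_smul, ze_PP, ih]
    push_cast; ring
  | pred n ih =>
    have : (PP x) ^ (-(n : ℤ) - 1) = (PP x)⁻¹ * (PP x) ^ (-(n : ℤ)) := by
      rw [← _root_.zpow_neg_one, ← _root_.zpow_add]
      congr 1
      ring
    rw [this, mul_smul, ze_PP_inv, ih]
    push_cast; ring

theorem norm_le_of_ze {x : ℝ} {z : ℍ} (h : 1 / 2 ≤ |(ze x z).re|) : ‖(z : ℂ) - x‖ ≤ 2 := by
  have h1 : 1 / 2 ≤ ‖ze x z‖ := h.trans (Complex.abs_re_le_norm _)
  unfold ze at h1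
  rw [norm_inv] at h1
  have h2 : 0 < ‖(z : ℂ) - x‖ := norm_pos_iff.mpr (sub_ne x z)
  rw [le_inv_comm₀ (by norm_num) h2] at h1
  simpa using h1

theorem far (i j : ℕ) (z : ℍ) (h1 : (1 : ℝ) / 2 ≤ |(ze (5 * i) z).re|)
    (h2 : (1 : ℝ) / 2 ≤ |(ze (5 * j) z).re|) (hij : i ≠ j) : False := by
  have a1 := norm_le_of_ze h1
  have a2 := norm_le_of_ze h2
  have h3 : ‖(((5 * j : ℝ) : ℂ) - ((5 * i : ℝ) : ℂ))‖ ≤ 4 := by
    have h4 : (((5 * j : ℝ) : ℂ) - ((5 * i : ℝ) : ℂ)) =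
        ((z : ℂ) - ((5 * i : ℝ) : ℂ)) - ((z : ℂ) - ((5 * j : ℝ) : ℂ)) := by ring
    rw [h4]
    refine (norm_sub_le _ _).trans ?_
    linarith
  rw [← Complex.ofReal_sub, Complex.norm_real, Real.norm_eq_abs] at h3
  have h5 : |(5 * j : ℝ) - 5 * i| = 5 * |((j : ℤ) - (i : ℤ) : ℤ)| := by
    push_cast
    rw [← mul_sub, abs_mul]
    norm_num
  rw [h5] at h3
  have h6 : (1 : ℤ) ≤ |(j : ℤ) - (i : ℤ)| := by
    apply Int.one_le_abs
    omega
  have h7 : (1 : ℝ) ≤ ((|(j : ℤ) - (i : ℤ)| : ℤ) : ℝ) := by exact_mod_cast h6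
  linarith

theorem ping_pong : Function.Injective
    (FreeGroup.lift (fun n : ℕ => (PP (5 * n : ℝ) : SL(2, ℝ)))) := by
  refine FreeGroup.injective_lift_of_ping_pong (fun n : ℕ => (PP (5 * n : ℝ) : SL(2, ℝ)))
    (fun n => {z : ℍ | 1 / 2 ≤ (ze (5 * n) z).re}) (fun n => {z : ℍ | (ze (5 * n) z).re ≤ -(1 / 2)})
    ?_ ?_ ?_ ?_ ?_ ?_
  · intro n
    refine ⟨⟨⟨5 * n + 1 / 2, 1 / 2⟩, by norm_num⟩, ?_⟩
    show (1 : ℝ) / 2 ≤ (ze (5 * n) _).re
    unfold ze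
    have h : (((⟨⟨5 * n + 1 / 2, 1 / 2⟩, by norm_num⟩ : ℍ) : ℂ) - ((5 * n : ℝ) : ℂ)) =
        ⟨1 / 2, 1 / 2⟩ := by
      apply Complex.ext <;> simp
    rw [h, Complex.inv_re]
    norm_num [Complex.normSq]
  · intro i j hij
    rw [Function.onFun, Set.disjoint_left]
    intro z hz hz'
    have h1 : (1 : ℝ) / 2 ≤ |(ze (5 * i) z).re| := le_trans hz (le_abs_self _)
    have h2 : (1 : ℝ) / 2 ≤ |(ze (5 * j) z).re| := le_trans hz' (le_abs_self _)
    exact far i j z h1 h2 hij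
  · intro i j hij
    rw [Function.onFun, Set.disjoint_left]
    intro z hz hz'
    have hz1 : (ze (5 * i) z).re ≤ -(1 / 2) := hz
    have hz2 : (ze (5 * j) z).re ≤ -(1 / 2) := hz'
    have h1 : (1 : ℝ) / 2 ≤ |(ze (5 * i) z).re| := by
      rw [abs_of_neg (by linarith)]; linarith
    have h2 : (1 : ℝ) / 2 ≤ |(ze (5 * j) z).re| := by
      rw [abs_of_neg (by linarith)]; linarith
    exact far i j z h1 h2 hij
  · intro i j
    rw [Set.disjoint_left]
    intro z hz hz'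
    have hz1 : (1 : ℝ) / 2 ≤ (ze (5 * i) z).re := hz
    have hz2 : (ze (5 * j) z).re ≤ -(1 / 2) := hz'
    by_cases hij : i = j
    · subst hij
      linarith
    · have h1 : (1 : ℝ) / 2 ≤ |(ze (5 * i) z).re| := le_trans hz1 (le_abs_self _)
      have h2 : (1 : ℝ) / 2 ≤ |(ze (5 * j) z).re| := by
        rw [abs_of_neg (by linarith)]; linarith
      exact far i j z h1 h2 hij
  · rintro n _ ⟨z, hz, rfl⟩
    have hz1 : ¬ ((ze (5 * n) z).re ≤ -(1 / 2)) := hz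
    show (1 : ℝ) / 2 ≤ (ze (5 * n) (PP (5 * n : ℝ) • z)).re
    rw [ze_PP, Complex.add_re, Complex.one_re]
    linarith
  · rintro n _ ⟨z, hz, rfl⟩
    have hz1 : ¬ ((1 : ℝ) / 2 ≤ (ze (5 * n) z).re) := hz
    show (ze (5 * n) ((PP (5 * n : ℝ))⁻¹ • z)).re ≤ -(1 / 2)
    rw [ze_PP_inv, Complex.sub_re, Complex.one_re]
    linarith

end Pool.Agent.X186.HC
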