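import Pool.Agent.X186.HC.Solve

/-!
# Loops of minimal length
-/

set_option autoImplicit false

open FreeGroup

namespace Pool.Agent.X186.HC

variable {G : Type*} {X : Type*} [MulAction (FreeGroup G) X]

/-- a loop of minimal length in the orbit -/
def MinLoop (v : X) (u : List (G × Bool)) : Prop :=
  FreeGroup.mk u ≠ 1 ∧ FreeGroup.mk u • v = v ∧ ∀ (g : FreeGroup G) (u' : List (G × Bool)),
    FreeGroup.mk u' ≠ 1 → FreeGroup.mk u' • (g • v) = g • v → u.length ≤ u'.length

theorem exists_minLoop (p : X) (h : ∃ g : FreeGroup G, g ≠ 1 ∧ g • p = p) :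
    ∃ (g : FreeGroup G) (u : List (G × Bool)), MinLoop (g • p) u := by
  classical
  obtain ⟨g0, hg0, hg0'⟩ := h
  let P : ℕ → Prop := fun n => ∃ (g : FreeGroup G) (u : List (G × Bool)), u.length = n ∧
    FreeGroup.mk u ≠ 1 ∧ FreeGroup.mk u • (g • p) = g • p
  have hex : ∃ n, P n := ⟨g0.toWord.length, 1, g0.toWord, rfl, by rwa [mk_toWord],
    by rw [mk_toWord, one_smul]; exact hg0'⟩
  obtain ⟨g, u, h1, h2, h3⟩ := Nat.find_spec hex
  refine ⟨g, u, h2, h3, ?_⟩
  intro g' u' h4 h5
  rw [h1]
  refine Nat.find_min' hex ⟨g' * g, u', rfl, h4, ?_⟩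
  rw [mul_smul]
  exact h5

theorem MinLoop.smul_pt {v : X} {u : List (G × Bool)} (h : MinLoop v u) (s : List (G × Bool))
    (p : List (G × Bool)) (hu : u = p ++ s) : MinLoop (FreeGroup.mk s • v) (s ++ p) := by
  obtain ⟨h1, h2, h3⟩ := h
  subst hu
  have hconj : FreeGroup.mk (s ++ p) =
      FreeGroup.mk s * FreeGroup.mk (p ++ s) * (FreeGroup.mk s)⁻¹ := by
    rw [← mul_mk, ← mul_mk]; group
  refine ⟨?_, ?_, ?_⟩
  · intro h
    apply h1
    rw [hconj] at h
    exact conj_eq_one_iff.mp h
  · rw [mk_append_smul, ← mk_append_smul p s, h2]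
  · intro g u' h4 h5
    have h6 := h3 (g * FreeGroup.mk s) u' h4 (by rw [mul_smul]; exact h5)
    simp only [List.length_append] at h6 ⊢
    omega

theorem MinLoop.inv {v : X} {u : List (G × Bool)} (h : MinLoop v u) : MinLoop v (invRev u) := by
  obtain ⟨h1, h2, h3⟩ := h
  refine ⟨?_, ?_, ?_⟩
  · rw [← inv_mk]
    exact fun h => h1 (inv_eq_one.mp h)
  · rw [← inv_mk, inv_smul_eq_iff]
    exact h2.symm
  · intro g u' h4 h5
    rw [invRev_length]
    exact h3 g u' h4 h5

theorem MinLoop.reduced {v : X} {u : List (G × Bool)} (h : MinLoop v u) : IsReduced u := by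
  classical
  obtain ⟨h1, h2, h3⟩ := h
  rw [isReduced_iff_reduce_eq]
  have h4 : FreeGroup.mk (reduce u) = FreeGroup.mk u := reduce.self
  have h5 : u.length ≤ (reduce u).length := h3 1 (reduce u) (by rwa [h4]) (by
    rw [h4, one_smul, h2])
  exact (Red.sublist reduce.red).eq_of_length_le h5

theorem MinLoop.ne_nil {v : X} {u : List (G × Bool)} (h : MinLoop v u) : u ≠ [] := by
  rintro rfl
  exact h.1 rfl

/-- first and last letters do not cancel -/
theorem MinLoop.cyc {v : X} {u : List (G × Bool)} (h : MinLoop v u) (c d : G × Bool)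
    (hc : c ∈ u.getLast?) (hd : d ∈ u.head?) : d ≠ li c := by
  obtain ⟨m, rfl⟩ : ∃ m, u = d :: m := by
    rcases u with _ | ⟨d', m⟩
    · simp at hd
    · simp at hd
      exact ⟨m, by rw [hd]⟩
  have h2 := (h.smul_pt m [d] rfl).reduced
  rcases m with _ | ⟨e, m⟩
  · simp at hc
    subst hc
    intro h3
    have := congrArg Prod.snd h3
    simp [li] at this
  · have hc' : c ∈ (e :: m).getLast? := by
      simpa using hc
    exact (red_append.mp h2).2.2 c hc' d (by simp)

theorem MinLoop.inj {v : X} {u : List (G × Bool)} (h : MinLoop v u) {s s' : List (G × Bool)}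
    (hs : s <:+ u) (hs' : s' <:+ u) (hl : s.length < u.length) (hl' : s'.length < u.length)
    (heq : FreeGroup.mk s • v = FreeGroup.mk s' • v) : s = s' := by
  have key : ∀ s s' : List (G × Bool), s <:+ u → s' <:+ u → s.length < u.length →
      s'.length < u.length → FreeGroup.mk s • v = FreeGroup.mk s' • v → s.length ≤ s'.length →
      s = s' := by
    intro s s' hs hs' hl hl' heq hle
    obtain ⟨r, hr⟩ := List.suffix_of_suffix_length_le hs hs' hle
    have hred : IsReduced s' := by
      obtain ⟨q, hq⟩ := hs'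
      exact (red_append.mp (hq ▸ h.reduced)).2.1
    by_cases hr0 : r = []
    · rw [← hr, hr0, List.nil_append]
    · exfalso
      have h1 : FreeGroup.mk r ≠ 1 := mk_ne_one (red_append.mp (hr ▸ hred)).1 hr0
      have h2 : FreeGroup.mk r • (FreeGroup.mk s • v) = FreeGroup.mk s • v := by
        rw [← mk_append_smul, hr, heq]
      have h3 := h.2.2 _ r h1 h2
      have h4 := congrArg List.length hr
      rw [List.length_append] at h4
      omega
  rcases le_total s.length s'.length with hle | hle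
  · exact key s s' hs hs' hl hl' heq hle
  · exact (key s' s hs' hs hl' hl heq.symm hle).symm

/-- the points on the loop -/
def loopSet (v : X) (u : List (G × Bool)) : Set X :=
  {y | ∃ p s : List (G × Bool), u = p ++ s ∧ y = FreeGroup.mk s • v}

/-- the rotated word at a point of the loop -/
theorem loop_word {v : X} {u : List (G × Bool)} (h : MinLoop v u) {y : X} (hy : y ∈ loopSet v u) :
    ∃ w : List (G × Bool), w ≠ [] ∧ IsReduced w ∧ FreeGroup.mk w • y = y ∧
      (∀ c ∈ w.getLast?, ∃ p s : List (G × Bool), u = p ++ (c :: s) ∧ y = FreeGroup.mk s • v) ∧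
      (∀ d ∈ w.head?, ∃ p s : List (G × Bool), u = p ++ (d :: s) ∧ y = FreeGroup.mk (d :: s) • v) := by
  obtain ⟨p, s, hu, rfl⟩ := hy
  have hm := h.smul_pt s p hu
  have hune := h.ne_nil
  refine ⟨s ++ p, hm.ne_nil, hm.reduced, hm.2.1, ?_, ?_⟩
  · intro c hc
    rcases List.eq_nil_or_concat p with hp | ⟨p', c', hp⟩
    · subst hp
      simp at hu hc
      subst hu
      rcases List.eq_nil_or_concat u with h1 | ⟨u', e, h1⟩
      · exact absurd h1 hune
      · have h1' : u = u' ++ [e] := by simpa using h1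
        rw [h1'] at hc
        simp at hc
        subst hc
        exact ⟨u', [], by simpa using h1', by rw [h.2.1, mk_nil_smul]⟩
    · have hp' : p = p' ++ [c'] := by simpa using hp
      subst hp'
      rw [← List.append_assoc] at hc
      simp at hc
      subst hc
      exact ⟨p', s, by simpa using hu, rfl⟩
  · intro d hd
    rcases s with _ | ⟨d', s⟩
    · simp at hu hd
      subst hu
      rcases u with _ | ⟨e, u⟩
      · exact absurd rfl hune
      · simp at hd
        subst hd
        exact ⟨[], u, by simp, by rw [mk_nil_smul, h.2.1]⟩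
    · simp at hd
      subst hd
      exact ⟨p, s, hu, rfl⟩

theorem loop_core {v : X} {u : List (G × Bool)} (h : MinLoop v u) :
    Core (G := G) (loopSet v u) := by
  intro y hy
  obtain ⟨w, h1, h2, h3, h4, h5⟩ := loop_word h hy
  refine ⟨w, h1, h2, h3, ?_, ?_⟩
  · intro c hc
    obtain ⟨p, s, hu, rfl⟩ := h4 c hc
    exact ⟨p, c :: s, hu, (mk_cons_smul c s v).symm⟩
  · intro d hd
    obtain ⟨p, s, hu, rfl⟩ := h5 d hd
    refine ⟨p ++ [d], s, by simpa using hu, ?_⟩
    rw [mk_cons_smul d s v, li_smul]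

/-- edges between points of the loop are edges of the loop -/
theorem loop_edge {v : X} {u : List (G × Bool)} (h : MinLoop v u) {y : X} (hy : y ∈ loopSet v u)
    (hcomm : CommAt G y) (c : G × Bool) (hc : FreeGroup.mk [c] • y ∈ loopSet v u) :
    (∃ p s : List (G × Bool), u = p ++ (c :: s) ∧ y = FreeGroup.mk s • v) ∨
    (∃ p s : List (G × Bool), u = p ++ (li c :: s) ∧ y = FreeGroup.mk (li c :: s) • v) := by
  obtain ⟨w, h1, h2, h3, h4, h5⟩ := loop_word h hy
  obtain ⟨w', h1', h2', h3', h4', h5'⟩ := loop_word h hc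
  by_contra hcon
  rw [not_or] at hcon
  refine edge_contra hcomm h1 h2 h3 h1' h2' h3' ?_ ?_ ?_ ?_
  · intro hh
    exact hcon.1 (h4 c hh)
  · intro hh
    exact hcon.2 (h5 _ hh)
  · intro hh
    obtain ⟨p, s, hu, he⟩ := h5' _ hh
    apply hcon.1
    refine ⟨p, s, hu, ?_⟩
    rw [mk_cons_smul c s v] at he
    exact smul_left_cancel _ he
  · intro hh
    obtain ⟨p, s, hu, he⟩ := h4' _ hh
    apply hcon.2
    refine ⟨p, s, hu, ?_⟩
    rw [mk_cons_smul, ← he, li_smul]

/-- solution on the loop -/
theorem loop_solve {Lab : Type*} (E : G × Bool → Lab → Lab → Prop)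
    (hsym : ∀ c a b, E (li c) a b → E c b a) (f : G × Bool → Lab → Lab)
    (hf : ∀ c a, E c a (f c a)) {v : X} {u : List (G × Bool)} (h : MinLoop v u)
    (hcomm : ∀ y ∈ loopSet v u, CommAt G y) (a0 : Lab)
    (hclose : ∀ c q, u = c :: q → E c (q.foldr f a0) a0) :
    ∃ lam0 : X → Lab, ∀ x ∈ loopSet v u, ∀ c : G × Bool, FreeGroup.mk [c] • x ∈ loopSet v u →
      E c (lam0 x) (lam0 (FreeGroup.mk [c] • x)) := by
  classical
  let Q : X → List (G × Bool) → Prop := fun x s => s <:+ u ∧ s.length < u.length ∧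
    x = FreeGroup.mk s • v
  let lam0 : X → Lab := fun x => if hx : ∃ s, Q x s then (Classical.choose hx).foldr f a0 else a0
  have h1 : ∀ s : List (G × Bool), s <:+ u → s.length < u.length →
      lam0 (FreeGroup.mk s • v) = s.foldr f a0 := by
    intro s hs hl
    have hex : ∃ s', Q (FreeGroup.mk s • v) s' := ⟨s, hs, hl, rfl⟩
    simp only [lam0, dif_pos hex]
    obtain ⟨h2, h3, h4⟩ := Classical.choose_spec hex
    rw [← h.inj hs h2 hl h3 h4]
  have h2 : lam0 v = a0 := by
    have hl : 0 < u.length := List.length_pos_iff.mpr h.ne_nil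
    have := h1 [] (List.nil_suffix) (by simpa using hl)
    rw [mk_nil_smul] at this
    simpa using this
  have h3 : ∀ p c s, u = p ++ (c :: s) →
      E c (lam0 (FreeGroup.mk s • v)) (lam0 (FreeGroup.mk (c :: s) • v)) := by
    intro p c s hu
    have hs : s <:+ u := ⟨p ++ [c], by simp [hu]⟩
    have hsl : s.length < u.length := by rw [hu]; simp; omega
    rw [h1 s hs hsl]
    rcases p with _ | ⟨e, p⟩
    · simp at hu
      rw [← hu, h.2.1, h2]
      exact hclose c s hu
    · have hcl : (c :: s).length < u.length := by rw [hu]; simp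
      rw [h1 (c :: s) ⟨_, hu.symm⟩ hcl, List.foldr_cons]
      exact hf _ _
  refine ⟨lam0, ?_⟩
  intro x hx c hc
  rcases loop_edge h hx (hcomm x hx) c hc with ⟨p, s, hu, rfl⟩ | ⟨p, s, hu, rfl⟩
  · rw [← mk_cons_smul]
    exact h3 p c s hu
  · have h4 := h3 p (li c) s hu
    have h5 : FreeGroup.mk [c] • FreeGroup.mk (li c :: s) • v = FreeGroup.mk s • v := by
      rw [mk_cons_smul (li c) s v, smul_li]
    rw [h5]
    exact hsym _ _ _ h4

/-- solution on an orbit -/
theorem orbit_solve {Lab : Type*} [Nonempty Lab] (E : G × Bool → Lab → Lab → Prop)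
    (hsym : ∀ c a b, E (li c) a b → E c b a) (f : G × Bool → Lab → Lab)
    (hf : ∀ c a, E c a (f c a)) (hcomm : ∀ x : X, CommAt G x)
    (hloop : ∀ (v : X) (u : List (G × Bool)), MinLoop v u →
      ∃ (g : FreeGroup G) (u' : List (G × Bool)) (a0 : Lab), MinLoop (g • v) u' ∧
        ∀ c q, u' = c :: q → E c (q.foldr f a0) a0) :
    ∃ lam : X → Lab, ∀ x, ∀ c : G × Bool, E c (lam x) (lam (FreeGroup.mk [c] • x)) := by
  classical
  have key : ∀ p : X, ∃ lam : X → Lab, ∀ g : FreeGroup G, ∀ c : G × Bool,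
      E c (lam (g • p)) (lam (FreeGroup.mk [c] • g • p)) := by
    intro p
    by_cases hst : ∃ g : FreeGroup G, g ≠ 1 ∧ g • p = p
    · obtain ⟨g, u, hu⟩ := exists_minLoop p hst
      obtain ⟨g', u', a0, hm, hcl⟩ := hloop _ _ hu
      obtain ⟨lam0, h0⟩ := loop_solve E hsym f hf hm (fun y _ => hcomm y) a0 hcl
      obtain ⟨lam, hlam⟩ := extend E hsym f hf ((loop_core hm).good (fun y _ => hcomm y)) lam0 h0
      refine ⟨lam, fun k c => hlam _ ?_ c⟩
      refine ⟨(g' * g * k⁻¹).toWord, ?_⟩
      rw [mk_toWord, mul_smul, inv_smul_smul, mul_smul]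
      exact ⟨u', [], by simp, by rw [mk_nil_smul]⟩
    · push Not at hst
      have hgood : Good G ({p} : Set X) := by
        intro a ha x hx hx' a' ha'
        rw [Set.mem_singleton_iff] at hx hx'
        subst hx
        have h1 : FreeGroup.mk a = 1 := by
          by_contra h
          exact hst _ h hx'
        have h2 : a = [] := red_ext ha IsReduced.nil (by rw [h1]; rfl)
        subst h2
        have h3 : a' = [] := List.suffix_nil.mp ha'
        rw [h3, mk_nil_smul]
        rfl
      obtain ⟨l0⟩ := ‹Nonempty Lab›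
      obtain ⟨lam, hlam⟩ := extend E hsym f hf hgood (fun _ => l0) (by
        intro x hx c hc
        rw [Set.mem_singleton_iff] at hx hc
        subst hx
        exact absurd hc (hst _ (mk_ne_one (by simp) (by simp))))
      refine ⟨lam, fun k c => hlam _ ?_ c⟩
      refine ⟨(k⁻¹).toWord, ?_⟩
      rw [mk_toWord, inv_smul_smul]
      rfl
  -- choose a point in each orbit
  choose Lm hLm using key
  let r : X → X := fun x => Quotient.out (Quotient.mk (MulAction.orbitRel (FreeGroup G) X) x)
  have hr : ∀ x, ∃ g : FreeGroup G, g • r x = x := by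
    intro x
    have h1 : (MulAction.orbitRel (FreeGroup G) X).r (r x) x := Quotient.mk_out (s := MulAction.orbitRel (FreeGroup G) X) x
    have h2 : r x ∈ MulAction.orbit (FreeGroup G) x := h1
    rw [MulAction.mem_orbit_symm] at h2
    exact h2
  have hr2 : ∀ (g : FreeGroup G) x, r (g • x) = r x := by
    intro g x
    have : Quotient.mk (MulAction.orbitRel (FreeGroup G) X) (g • x) =
        Quotient.mk (MulAction.orbitRel (FreeGroup G) X) x := by
      apply Quotient.sound
      show (g • x) ∈ MulAction.orbit (FreeGroup G) x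
      exact ⟨g, rfl⟩
    show Quotient.out _ = Quotient.out _
    rw [this]
  refine ⟨fun x => Lm (r x) x, fun x c => ?_⟩
  obtain ⟨g, hg⟩ := hr x
  have h1 := hLm (r x) g c
  rw [hg] at h1
  show E c (Lm (r x) x) (Lm (r (FreeGroup.mk [c] • x)) (FreeGroup.mk [c] • x))
  rw [hr2]
  exact h1

end Pool.Agent.X186.HC
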