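import Pool.Agent.X186.HC.Comb

/-!
# Extension of solutions and loops of minimal length
-/

set_option autoImplicit false

open FreeGroup

namespace Pool.Agent.X186.HC

variable {G : Type*} {X : Type*} [MulAction (FreeGroup G) X]

/-- **Extension.** A solution on a good set extends to all points joined to it. -/
theorem extend {Lab : Type*} (E : G × Bool → Lab → Lab → Prop)
    (hsym : ∀ c a b, E (li c) a b → E c b a) (f : G × Bool → Lab → Lab)
    (hf : ∀ c a, E c a (f c a)) {Y : Set X} (hY : Good G Y) (lam0 : X → Lab)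
    (h0 : ∀ x ∈ Y, ∀ c : G × Bool, FreeGroup.mk [c] • x ∈ Y →
      E c (lam0 x) (lam0 (FreeGroup.mk [c] • x))) :
    ∃ lam : X → Lab, ∀ x, (∃ a : List (G × Bool), FreeGroup.mk a • x ∈ Y) →
      ∀ c : G × Bool, E c (lam x) (lam (FreeGroup.mk [c] • x)) := by
  classical
  let D : Set X := {x | ∃ a : List (G × Bool), FreeGroup.mk a • x ∈ Y}
  have hD : ∀ x ∈ D, ∀ c : G × Bool, FreeGroup.mk [c] • x ∈ D := by
    rintro x ⟨a, ha⟩ c
    refine ⟨a ++ [li c], ?_⟩
    rw [mk_append_smul, li_smul]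
    exact ha
  -- lengths
  let P : X → ℕ → Prop := fun x n => ∃ a : List (G × Bool), a.length = n ∧ FreeGroup.mk a • x ∈ Y
  let d : X → ℕ := fun x => if h : ∃ n, P x n then Nat.find h else 0
  have hdP : ∀ x ∈ D, P x (d x) := by
    rintro x ⟨a, ha⟩
    have hex : ∃ n, P x n := ⟨a.length, a, rfl, ha⟩
    simp only [d, dif_pos hex]
    exact Nat.find_spec hex
  have hdmin : ∀ x, ∀ a : List (G × Bool), FreeGroup.mk a • x ∈ Y → d x ≤ a.length := by
    intro x a ha
    have hex : ∃ n, P x n := ⟨a.length, a, rfl, ha⟩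
    simp only [d, dif_pos hex]
    exact Nat.find_min' hex ⟨a, rfl, ha⟩
  -- canonical paths
  have hpath : ∀ x ∈ D, x ∉ Y → ∃ (a : List (G × Bool)) (c : G × Bool),
      IsReduced (a ++ [c]) ∧ FreeGroup.mk (a ++ [c]) • x ∈ Y ∧ (a ++ [c]).length = d x := by
    intro x hx hxY
    obtain ⟨b, hb, hbY⟩ := hdP x hx
    have hred : IsReduced b := by
      rw [isReduced_iff_reduce_eq]
      have h1 : FreeGroup.mk (reduce b) = FreeGroup.mk b := reduce.self
      have h2 : d x ≤ (reduce b).length := hdmin x _ (by rw [h1]; exact hbY)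
      have h3 : List.Sublist (reduce b) b := Red.sublist reduce.red
      exact h3.eq_of_length_le (by omega)
    rcases List.eq_nil_or_concat b with h | ⟨a, c, h⟩
    · rw [h, mk_nil_smul] at hbY
      exact absurd hbY hxY
    · have h' : b = a ++ [c] := by simpa using h
      exact ⟨a, c, h' ▸ hred, h' ▸ hbY, h' ▸ hb⟩
  choose aa sg hsg hsgY hsgl using hpath
  have hdec : ∀ x (h1 : x ∈ D) (h2 : x ∉ Y), d (FreeGroup.mk [sg x h1 h2] • x) < d x := by
    intro x h1 h2
    have h3 : FreeGroup.mk (aa x h1 h2) • (FreeGroup.mk [sg x h1 h2] • x) ∈ Y := by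
      rw [← mk_append_smul]; exact hsgY x h1 h2
    have h4 := hdmin _ _ h3
    have h5 := hsgl x h1 h2
    rw [List.length_append, List.length_singleton] at h5
    omega
  -- uniqueness of the first step
  have huniq : ∀ x ∉ Y, ∀ (a b : List (G × Bool)) (c e : G × Bool),
      IsReduced (a ++ [c]) → IsReduced (b ++ [e]) → FreeGroup.mk (a ++ [c]) • x ∈ Y →
      FreeGroup.mk (b ++ [e]) • x ∈ Y → c = e := by
    intro x hx a b c e h1 h2 h3 h4
    by_contra hne
    have hred : IsReduced ((a ++ [c]) ++ invRev (b ++ [e])) := by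
      refine red_append.mpr ⟨h1, red_invRev h2, ?_⟩
      intro u hu v hv
      rw [invRev_snoc] at hv
      simp at hu hv
      rw [← hu, ← hv]
      intro h
      exact hne (li_inj h).symm
    have h5 := hY _ hred (FreeGroup.mk (b ++ [e]) • x) h4 (by
      rw [mk_append_smul, ← inv_mk, inv_smul_smul]
      exact h3) (invRev (b ++ [e])) ⟨a ++ [c], rfl⟩
    rw [← inv_mk, inv_smul_smul] at h5
    exact hx h5
  -- leaving `Y`
  have hleave : ∀ x ∈ Y, ∀ c : G × Bool, ∀ h1 : FreeGroup.mk [c] • x ∈ D,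
      ∀ h2 : FreeGroup.mk [c] • x ∉ Y, sg (FreeGroup.mk [c] • x) h1 h2 = li c := by
    intro x hx c h1 h2
    refine huniq _ h2 (aa _ h1 h2) [] _ (li c) (hsg _ h1 h2) (by simp) (hsgY _ h1 h2) ?_
    rw [List.nil_append, li_smul]
    exact hx
  have hfar : ∀ x, ∀ (h1 : x ∈ D) (h2 : x ∉ Y), ∀ c : G × Bool, c ≠ sg x h1 h2 →
      FreeGroup.mk [c] • x ∉ Y ∧ ∀ (h3 : FreeGroup.mk [c] • x ∈ D) (h4 : FreeGroup.mk [c] • x ∉ Y),
        sg (FreeGroup.mk [c] • x) h3 h4 = li c := by
    intro x h1 h2 c hc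
    have hred : IsReduced ((aa x h1 h2 ++ [sg x h1 h2]) ++ [li c]) := by
      refine red_append.mpr ⟨hsg x h1 h2, by simp, ?_⟩
      intro u hu v hv
      simp at hu hv
      rw [← hu, ← hv]
      intro h
      exact hc (li_inj h)
    have hY2 : FreeGroup.mk ((aa x h1 h2 ++ [sg x h1 h2]) ++ [li c]) • (FreeGroup.mk [c] • x) ∈ Y := by
      rw [mk_append_smul, li_smul]
      exact hsgY x h1 h2
    constructor
    · intro h3
      have := hY _ hred _ h3 hY2 [li c] ⟨_, rfl⟩
      rw [li_smul] at this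
      exact h2 this
    · intro h3 h4
      exact huniq _ h4 _ _ _ _ (hsg _ h3 h4) hred (hsgY _ h3 h4) hY2
  -- the recursion
  let F : ∀ x : X, (∀ y : X, d y < d x → Lab) → Lab := fun x rc =>
    if h : x ∈ D ∧ x ∉ Y then f (li (sg x h.1 h.2)) (rc _ (hdec x h.1 h.2)) else lam0 x
  let lam : X → Lab := (measure d).wf.fix F
  have hlam : ∀ x, lam x = F x (fun y _ => lam y) := fun x => (measure d).wf.fix_eq F x
  have hlamY : ∀ x ∈ Y, lam x = lam0 x := by
    intro x hx
    rw [hlam]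
    simp only [F]
    rw [dif_neg (fun h => h.2 hx)]
  have hlamN : ∀ x (h1 : x ∈ D) (h2 : x ∉ Y), lam x =
      f (li (sg x h1 h2)) (lam (FreeGroup.mk [sg x h1 h2] • x)) := by
    intro x h1 h2
    rw [hlam]
    simp only [F]
    rw [dif_pos ⟨h1, h2⟩]
  refine ⟨lam, ?_⟩
  intro x hx c
  have hxD : x ∈ D := hx
  have hcD := hD x hxD c
  by_cases hxY : x ∈ Y
  · by_cases hcY : FreeGroup.mk [c] • x ∈ Y
    · rw [hlamY x hxY, hlamY _ hcY]
      exact h0 x hxY c hcY
    · rw [hlamN _ hcD hcY, hleave x hxY c hcD hcY, li_li, li_smul]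
      exact hf c _
  · by_cases hc : c = sg x hxD hxY
    · rw [hlamN x hxD hxY, ← hc]
      have h1 := hf (li c) (lam (FreeGroup.mk [c] • x))
      exact hsym _ _ _ h1
    · obtain ⟨h1, h2⟩ := hfar x hxD hxY c hc
      rw [hlamN _ hcD h1, h2 hcD h1, li_li, li_smul]
      exact hf c _

end Pool.Agent.X186.HC
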