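import Pool.Agent.X186.HC.Loop

/-!
# The system `t B = Bᶜ`, `x_k B = A_{S k}`
-/

set_option autoImplicit false

open FreeGroup

namespace Pool.Agent.X186.HC

section
variable {I K : Type*} (S : K → Set I) (i0 : I) (e : K → I)

/-- constraint on an edge -/
def EE : Option K × Bool → Bool × I → Bool × I → Prop
  | (none, _), a, b => b.1 = !a.1
  | (some k, true), a, b => (b.2 ∈ S k ↔ a.1 = true)
  | (some k, false), a, b => (a.2 ∈ S k ↔ b.1 = true)

open Classical in
/-- propagation -/
noncomputable def ff : Option K × Bool → Bool × I → Bool × I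
  | (none, _), a => (!a.1, i0)
  | (some k, true), a => (true, if a.1 = true then i0 else e k)
  | (some k, false), a => (decide (a.2 ∈ S k), i0)

theorem EE_sym (c : Option K × Bool) (a b : Bool × I) (h : EE S (li c) a b) : EE S c b a := by
  rcases c with ⟨_ | k, _ | _⟩
  · simp only [li, EE] at h ⊢
    rw [h]; simp
  · simp only [li, EE] at h ⊢
    rw [h]; simp
  · exact h
  · exact h

theorem EE_ff (hi0 : ∀ k, i0 ∈ S k) (he : ∀ k, e k ∉ S k) (c : Option K × Bool) (a : Bool × I) :
    EE S c a (ff S i0 e c a) := by
  classical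
  rcases c with ⟨_ | k, _ | _⟩
  · simp [EE, ff]
  · simp [EE, ff]
  · simp [EE, ff]
  · simp only [EE, ff]
    split_ifs with h
    · simp [h, hi0 k]
    · simp [h, he k]

/-- the first step only depends on the first component -/
theorem ff_fst (r : Option K × Bool) (hr : ∀ k, r ≠ (some k, false)) (b : Bool) (i j : I) :
    ff S i0 e r (b, i) = ff S i0 e r (b, j) := by
  rcases r with ⟨_ | k, _ | _⟩
  · rfl
  · rfl
  · exact absurd rfl (hr k)
  · rfl

theorem close (hi0 : ∀ k, i0 ∈ S k) (he : ∀ k, e k ∉ S k) (hinj : Function.Injective S)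
    (k : K) (q : List (Option K × Bool))
    (hcyc : (some k, false) ∉ q.getLast?) :
    ∃ a0, EE S (some k, true) (q.foldr (ff S i0 e) a0) a0 := by
  classical
  rcases List.eq_nil_or_concat q with h | ⟨q', r, h⟩
  · subst h
    exact ⟨(true, i0), by simp [EE, hi0 k]⟩
  · have hq : q = q' ++ [r] := by simpa using h
    subst hq
    have hfold : ∀ a0, (q' ++ [r]).foldr (ff S i0 e) a0 = q'.foldr (ff S i0 e) (ff S i0 e r a0) := by
      intro a0; simp
    by_cases hr : ∀ k', r ≠ (some k', false)
    · -- decoupled
      by_cases hb : (q'.foldr (ff S i0 e) (ff S i0 e r (true, i0))).1 = true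
      · refine ⟨(true, i0), ?_⟩
        rw [hfold]
        simp only [EE]
        simp [hb, hi0 k]
      · refine ⟨(true, e k), ?_⟩
        rw [hfold, ff_fst S i0 e r hr true (e k) i0]
        simp only [EE]
        simp [hb, he k]
    · push Not at hr
      obtain ⟨k', rfl⟩ := hr
      have hkk : S k' ≠ S k := by
        intro h
        have := hinj h
        subst this
        exact hcyc (by simp)
      set Q : Bool → Bool := fun β => (q'.foldr (ff S i0 e) (β, i0)).1 with hQ
      have hval : ∀ (b : Bool) (i : I) (β : Bool), decide (i ∈ S k') = β →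
          ((q' ++ [(some k', false)]).foldr (ff S i0 e) (b, i)).1 = Q β := by
        intro b i β hβ
        rw [hfold, hQ]
        simp only [ff, hβ]
      by_cases h1 : Q true = true
      · refine ⟨(true, i0), ?_⟩
        simp only [EE]
        rw [hval true i0 true (by simp [hi0 k']), h1]
        simp [hi0 k]
      · by_cases h2 : ∃ i, i ∈ S k' ∧ i ∉ S k
        · obtain ⟨i, hi, hi'⟩ := h2
          refine ⟨(true, i), ?_⟩
          simp only [EE]
          rw [hval true i true (by simp [hi])]
          simp [hi', h1]
        · push Not at h2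
          have h3 : ∃ i, i ∈ S k ∧ i ∉ S k' := by
            by_contra hcon
            push Not at hcon
            exact hkk (Set.Subset.antisymm h2 hcon)
          by_cases h4 : Q false = true
          · obtain ⟨i, hi, hi'⟩ := h3
            refine ⟨(true, i), ?_⟩
            simp only [EE]
            rw [hval true i false (by simp [hi']), h4]
            simp [hi]
          · refine ⟨(true, e k), ?_⟩
            have h5 : e k ∉ S k' := fun h => he k (h2 _ h)
            simp only [EE]
            rw [hval true (e k) false (by simp [h5])]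
            simp [he k, h4]

end

theorem all_none {K : Type*} (u : List (Option K × Bool)) (h : ∀ c ∈ u, c.1 = none) :
    ∃ n : ℤ, FreeGroup.mk u = (FreeGroup.of none) ^ n := by
  induction u with
  | nil => exact ⟨0, by simp; rfl⟩
  | cons c u ih =>
    obtain ⟨n, hn⟩ := ih (fun d hd => h d (by simp [hd]))
    have hc := h c (by simp)
    rcases c with ⟨c1, b⟩
    simp at hc
    subst hc
    have h1 : FreeGroup.mk ((none, b) :: u) =
        FreeGroup.mk [((none : Option K), b)] * FreeGroup.mk u := by
      rw [mul_mk]; rfl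
    cases b
    · refine ⟨-1 + n, ?_⟩
      rw [h1, hn, zpow_add, zpow_neg_one]
      rfl
    · refine ⟨1 + n, ?_⟩
      rw [h1, hn, zpow_add, zpow_one]
      rfl

section
variable {I K X : Type*} [MulAction (FreeGroup (Option K)) X]

theorem exists_loop (hpar : ∀ (n : ℤ) (x : X), n ≠ 0 →
      ((FreeGroup.of none : FreeGroup (Option K)) ^ n) • x ≠ x)
    (v : X) (u : List (Option K × Bool)) (hm : MinLoop v u) :
    ∃ (g : FreeGroup (Option K)) (k : K) (q : List (Option K × Bool)),
      MinLoop (g • v) ((some k, true) :: q) := by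
  have h1 : ∃ c ∈ u, c.1 ≠ none := by
    by_contra hcon
    push Not at hcon
    obtain ⟨n, hn⟩ := all_none u hcon
    by_cases h0 : n = 0
    · subst h0
      exact hm.1 (by simpa using hn)
    · have := hm.2.1
      rw [hn] at this
      exact hpar n v h0 this
  obtain ⟨⟨c1, b⟩, hc, hc1⟩ := h1
  obtain ⟨k, rfl⟩ : ∃ k, c1 = some k := by
    cases c1 with
    | none => exact absurd rfl hc1
    | some k => exact ⟨k, rfl⟩
  obtain ⟨p, s, hu⟩ := List.append_of_mem hc
  cases b with
  | true =>
    have := hm.smul_pt ((some k, true) :: s) p hu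
    exact ⟨_, k, s ++ p, this⟩
  | false =>
    have h2 := hm.inv
    have h3 : invRev u = invRev s ++ ((some k, true) :: invRev p) := by
      rw [hu, invRev_append, invRev_cons']
      simp [li]
    have := h2.smul_pt _ _ h3
    exact ⟨_, k, invRev p ++ invRev s, this⟩

/-- **Solution of the system.** -/
theorem system_solve (S : K → Set I) (i0 : I) (hi0 : ∀ k, i0 ∈ S k) (hne : ∀ k, S k ≠ Set.univ)
    (hinj : Function.Injective S) (hcomm : ∀ x : X, CommAt (Option K) x)
    (hpar : ∀ (n : ℤ) (x : X), n ≠ 0 →
      ((FreeGroup.of none : FreeGroup (Option K)) ^ n) • x ≠ x) :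
    ∃ (B : Set X) (A : X → I), (∀ x, (FreeGroup.of none : FreeGroup (Option K)) • x ∈ B ↔ x ∉ B) ∧
      ∀ k x, A ((FreeGroup.of (some k) : FreeGroup (Option K)) • x) ∈ S k ↔ x ∈ B := by
  classical
  have hex : ∀ k, ∃ i, i ∉ S k := by
    intro k
    by_contra hcon
    push Not at hcon
    exact hne k (Set.eq_univ_of_forall hcon)
  choose e he using hex
  have : Nonempty (Bool × I) := ⟨(true, i0)⟩
  obtain ⟨lam, hlam⟩ := orbit_solve (EE S) (EE_sym S) (ff S i0 e) (EE_ff S i0 e hi0 he) hcomm (by
    intro v u hm
    obtain ⟨g, k, q, hm'⟩ := exists_loop hpar v u hm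
    obtain ⟨a0, ha0⟩ := close S i0 e hi0 he hinj k q (by
      intro hq
      have h1 : (some k, false) ∈ ((some k, true) :: q).getLast? := by
        rcases q with _ | ⟨d, q⟩
        · simp at hq
        · simpa using hq
      exact hm'.cyc (some k, false) (some k, true) h1 (by simp) (by simp [li]))
    refine ⟨g, _, a0, hm', ?_⟩
    intro c q' hcq
    rw [List.cons.injEq] at hcq
    rw [← hcq.1, ← hcq.2]
    exact ha0)
  refine ⟨{x | (lam x).1 = true}, fun x => (lam x).2, ?_, ?_⟩
  · intro x
    have h1 := hlam x (none, true)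
    simp only [EE] at h1
    show (lam (FreeGroup.mk [(none, true)] • x)).1 = true ↔ ¬ ((lam x).1 = true)
    rw [h1]
    simp
  · intro k x
    have h1 := hlam x (some k, true)
    simp only [EE] at h1
    exact h1

end

end Pool.Agent.X186.HC
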